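import Mathlib

set_option autoImplicit false

/-!
# Signed sums with few zeros in every Bohr set

For every Bohr set of `ℤ` there is a constant `C` such that for every finite family of integers
`c l` there are signs `ε l ∈ {-1, 0, 1}`, at most `C` of them zero, with `∑ ε l * c l` in the
Bohr set.
-/

namespace Pool.Agent.Q265.IP

open Finset

/-- The Bárány–Grinberg floating colour lemma. -/
theorem floating {k : ℕ} {ι : Type} [Fintype ι] (d : ι → (Fin k → ℝ)) :
    ∃ x : ι → ℝ, (∀ p, |x p| ≤ 1) ∧ (∑ p, x p • d p = 0) ∧
      (univ.filter fun p => |x p| < 1).card ≤ k := by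
  classical
  set P : Set (ι → ℝ) := {x | (∀ p, x p ∈ Set.Icc (-1 : ℝ) 1) ∧ ∑ p, x p • d p = 0} with hP
  have hcomp : IsCompact P := by
    have h1 : IsCompact (Set.pi Set.univ fun _ : ι => Set.Icc (-1 : ℝ) 1) :=
      isCompact_univ_pi fun _ => isCompact_Icc
    have h2 : IsClosed {x : ι → ℝ | ∑ p, x p • d p = 0} := by
      apply isClosed_eq _ continuous_const
      exact continuous_finsetSum _ fun p _ => (continuous_apply p).smul continuous_const
    have h3 : P = (Set.pi Set.univ fun _ : ι => Set.Icc (-1 : ℝ) 1) ∩
        {x : ι → ℝ | ∑ p, x p • d p = 0} := by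
      ext x
      simp only [hP, Set.mem_ofPred_eq, Set.mem_inter_iff, Set.mem_pi, Set.mem_univ, true_imp_iff]
    rw [h3]
    exact h1.inter_right h2
  have hne : P.Nonempty := ⟨0, by simp [hP]⟩
  obtain ⟨x, hx⟩ := hcomp.extremePoints_nonempty hne
  rw [mem_extremePoints] at hx
  obtain ⟨hxP, hext⟩ := hx
  have hxP' := hxP
  rw [hP, Set.mem_ofPred_eq] at hxP'
  obtain ⟨hx1, hx2⟩ := hxP'
  refine ⟨x, fun p => abs_le.2 (hx1 p), hx2, ?_⟩
  by_contra hcard
  push Not at hcard
  set F := univ.filter fun p => |x p| < 1 with hF
  have hdep : ¬ LinearIndependent ℝ (fun p : F => d p) := by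
    intro hli
    have := hli.fintype_card_le_finrank
    rw [Module.finrank_fin_fun, Fintype.card_coe] at this
    omega
  rw [Fintype.not_linearIndependent_iff] at hdep
  obtain ⟨g, hg, ⟨i0, hi0⟩⟩ := hdep
  set c : ι → ℝ := fun p => if h : p ∈ F then g ⟨p, h⟩ else 0 with hc
  have hcs : ∑ p, c p • d p = 0 := by
    rw [← hg]
    rw [← Finset.sum_subset (Finset.subset_univ F)]
    · rw [← Finset.sum_coe_sort F]
      apply Finset.sum_congr rfl
      intro p _
      simp [hc, p.2]
    · intro p _ hp
      simp [hc, hp]
  have hev : ∀ p, ∀ᶠ τ : ℝ in nhdsWithin 0 (Set.Ioi 0), |x p + τ * c p| ≤ 1 ∧ |x p - τ * c p| ≤ 1 := by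
    intro p
    by_cases hp : p ∈ F
    · have hlt : |x p| < 1 := (Finset.mem_filter.1 hp).2
      have t1 : Filter.Tendsto (fun τ : ℝ => |x p + τ * c p|) (nhds 0) (nhds |x p + 0 * c p|) :=
        (Continuous.tendsto (by fun_prop) 0)
      have t2 : Filter.Tendsto (fun τ : ℝ => |x p - τ * c p|) (nhds 0) (nhds |x p - 0 * c p|) :=
        (Continuous.tendsto (by fun_prop) 0)
      rw [zero_mul, add_zero] at t1
      rw [zero_mul, sub_zero] at t2
      have e1 := t1.eventually (gt_mem_nhds hlt)
      have e2 := t2.eventually (gt_mem_nhds hlt)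
      filter_upwards [nhdsWithin_le_nhds e1, nhdsWithin_le_nhds e2] with τ h1 h2
      exact ⟨h1.le, h2.le⟩
    · have : c p = 0 := by simp [hc, hp]
      refine Filter.Eventually.of_forall fun τ => ?_
      rw [this, mul_zero, add_zero, sub_zero]
      exact ⟨abs_le.2 (hx1 p), abs_le.2 (hx1 p)⟩
  have hall := (Filter.eventually_all.2 hev).and (self_mem_nhdsWithin)
  obtain ⟨τ, hτ, hτ0⟩ := hall.exists
  have hτ0' : 0 < τ := hτ0
  set y : ι → ℝ := fun p => x p + τ * c p with hy
  set z : ι → ℝ := fun p => x p - τ * c p with hz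
  have hyP : y ∈ P := by
    rw [hP, Set.mem_ofPred_eq]
    refine ⟨fun p => abs_le.1 (hτ p).1, ?_⟩
    have : ∑ p, y p • d p = ∑ p, x p • d p + τ • ∑ p, c p • d p := by
      rw [Finset.smul_sum, ← Finset.sum_add_distrib]
      apply Finset.sum_congr rfl
      intro p _
      rw [hy]
      simp only [add_smul, mul_smul]
    rw [this, hx2, hcs]; simp
  have hzP : z ∈ P := by
    rw [hP, Set.mem_ofPred_eq]
    refine ⟨fun p => abs_le.1 (hτ p).2, ?_⟩
    have : ∑ p, z p • d p = ∑ p, x p • d p - τ • ∑ p, c p • d p := by
      rw [Finset.smul_sum, ← Finset.sum_sub_distrib]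
      apply Finset.sum_congr rfl
      intro p _
      rw [hz]
      simp only [sub_smul, mul_smul]
    rw [this, hx2, hcs]; simp
  have hseg : x ∈ openSegment ℝ y z := by
    refine ⟨1 / 2, 1 / 2, by norm_num, by norm_num, by norm_num, ?_⟩
    funext p
    simp only [hy, hz, Pi.add_apply, Pi.smul_apply, smul_eq_mul]
    ring
  have hyx' : y = x := by
    first
      | exact hext y hyP z hzP hseg
      | exact (hext y hyP z hzP hseg).1
  have := congrFun hyx' i0
  rw [hy] at this
  simp only at this
  have h2 : τ * c i0 = 0 := by linarith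
  rcases mul_eq_zero.1 h2 with h3 | h3
  · exact hτ0'.ne' h3
  · apply hi0
    have : c i0 = g i0 := by simp [hc]
    rw [← this]; exact h3

/-- Pairing up the elements of a finite set inside the fibres of a map to a finite type. -/
theorem pairing {C : Type} [Fintype C] (β : ℕ → C) (n : ℕ) : ∀ I : Finset ℕ, I.card = n →
    ∃ (ι : Type) (_ : Fintype ι) (e : ι × Bool → ℕ), Function.Injective e ∧ (∀ p, e p ∈ I) ∧
      (∀ i, β (e (i, true)) = β (e (i, false))) ∧ I.card ≤ 2 * Fintype.card ι + Fintype.card C := by
  classical
  induction n using Nat.strong_induction_on with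
  | _ n ih =>
    intro I hI
    by_cases hc : I.card ≤ Fintype.card C
    · refine ⟨Empty, inferInstance, fun p => p.1.elim, ?_, ?_, ?_, ?_⟩
      · intro p; exact p.1.elim
      · intro p; exact p.1.elim
      · intro i; exact i.elim
      · simpa using hc
    · push Not at hc
      obtain ⟨l, hl, l', hl', hne, hβ⟩ :=
        Finset.exists_ne_map_eq_of_card_lt_of_maps_to (s := I) (t := (univ : Finset C))
          (by simpa using hc) (f := β) (fun a _ => mem_coe.2 (mem_univ _))
      have h1 : ((I.erase l).erase l').card + 2 = I.card := by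
        have a1 := Finset.card_erase_add_one hl
        have a2 := Finset.card_erase_add_one (Finset.mem_erase.2 ⟨hne.symm, hl'⟩)
        omega
      obtain ⟨ι, hι, e, he, hem, heβ, hcard⟩ := ih (((I.erase l).erase l').card) (by omega) _ rfl
      refine ⟨Option ι, inferInstance, fun p => match p with
        | (some i, b) => e (i, b)
        | (none, true) => l
        | (none, false) => l', ?_, ?_, ?_, ?_⟩
      · rintro ⟨o, b⟩ ⟨o', b'⟩ h
        rcases o with _ | i <;> rcases o' with _ | i'
        · cases b <;> cases b' <;> simp_all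
        · exfalso
          have := hem (i', b')
          simp only [Finset.mem_erase] at this
          cases b
          · simp only at h
            exact this.1 h.symm
          · simp only at h
            exact this.2.1 h.symm
        · exfalso
          have := hem (i, b)
          simp only [Finset.mem_erase] at this
          cases b'
          · simp only at h
            exact this.1 h
          · simp only at h
            exact this.2.1 h
        · simp only at h
          have := he h
          simp only [Prod.mk.injEq] at this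
          rw [this.1, this.2]
      · rintro ⟨o, b⟩
        rcases o with _ | i
        · cases b
          · exact hl'
          · exact hl
        · have := hem (i, b)
          simp only [Finset.mem_erase] at this
          exact this.2.2
      · intro o
        rcases o with _ | i
        · exact hβ
        · exact heβ i
      · rw [Fintype.card_option]
        omega

/-- The Bohr set `B(α₁, …, α_k; η)`. -/
def bohr {k : ℕ} (α : Fin k → ℝ) (η : ℝ) : Set ℤ :=
  {b | ∀ i, ‖Complex.exp (2 * Real.pi * Complex.I * α i * b) - 1‖ < η}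

theorem exp_near {α r η : ℝ} {b z : ℤ} (h : α * b = z + r) (hr : 2 * Real.pi * |r| < η) :
    ‖Complex.exp (2 * Real.pi * Complex.I * α * b) - 1‖ < η := by
  have h1 : (2 * Real.pi * Complex.I * α * b : ℂ) =
      Complex.I * ((2 * Real.pi * r : ℝ) : ℂ) + (z : ℂ) * (2 * Real.pi * Complex.I) := by
    have h2 : ((α : ℂ) * (b : ℂ)) = (z : ℂ) + (r : ℂ) := by exact_mod_cast h
    push_cast
    linear_combination (2 * Real.pi * Complex.I : ℂ) * h2
  rw [h1, Complex.exp_add, Complex.exp_int_mul_two_pi_mul_I, mul_one]
  refine lt_of_le_of_lt Real.norm_exp_I_mul_ofReal_sub_one_le ?_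
  rw [Real.norm_eq_abs, abs_mul, abs_of_pos Real.two_pi_pos]
  exact hr

theorem signs {k : ℕ} (α : Fin k → ℝ) {η : ℝ} (hη : 0 < η) :
    ∃ C0 : ℕ, ∀ (I : Finset ℕ) (c : ℕ → ℤ), ∃ ε : ℕ → ℤ, (∀ l, |ε l| ≤ 1) ∧
      (∀ l, l ∉ I → ε l = 0) ∧ (I.filter fun l => ε l = 0).card ≤ C0 ∧
      (∑ l ∈ I, ε l * c l) ∈ bohr α η := by
  classical
  obtain ⟨K, hK⟩ := exists_nat_gt (2 * Real.pi * k / η)
  have hK0 : 0 < (K : ℝ) := by
    refine lt_of_le_of_lt ?_ hK
    have := Real.pi_pos
    positivity
  have hKn : 0 < K := by exact_mod_cast hK0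
  have hKη : 2 * Real.pi * (k / K) < η := by
    rw [div_lt_iff₀ hη] at hK
    rw [← mul_div_assoc, div_lt_iff₀ hK0]
    linarith
  refine ⟨K ^ k + 2 * k, fun I c => ?_⟩
  set v : ℕ → Fin k → ℝ := fun l i => Int.fract (α i * c l) with hv
  set β : ℕ → (Fin k → Fin K) := fun l i =>
    ⟨⌊(K : ℝ) * v l i⌋₊, by
      rw [Nat.floor_lt (mul_nonneg hK0.le (Int.fract_nonneg _))]
      have := Int.fract_lt_one (α i * c l)
      calc (K : ℝ) * v l i < K * 1 := by
            exact mul_lt_mul_of_pos_left this hK0
        _ = K := mul_one _⟩ with hβ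
  obtain ⟨ι, hι, e, he, hem, heβ, hcard⟩ := pairing β _ I rfl
  have hClose : ∀ p i, |v (e (p, true)) i - v (e (p, false)) i| ≤ 1 / K := by
    intro p i
    have h1 := congrFun (heβ p) i
    rw [hβ] at h1
    simp only [Fin.mk.injEq] at h1
    have a1 := Nat.floor_le (mul_nonneg hK0.le (Int.fract_nonneg (α i * c (e (p, true)))))
    have a2 := Nat.floor_le (mul_nonneg hK0.le (Int.fract_nonneg (α i * c (e (p, false)))))
    have b1 := Nat.lt_floor_add_one ((K : ℝ) * Int.fract (α i * c (e (p, true))))
    have b2 := Nat.lt_floor_add_one ((K : ℝ) * Int.fract (α i * c (e (p, false))))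
    have h1' : ((⌊(K : ℝ) * Int.fract (α i * c (e (p, true)))⌋₊ : ℕ) : ℝ) =
        ((⌊(K : ℝ) * Int.fract (α i * c (e (p, false)))⌋₊ : ℕ) : ℝ) := by
      exact_mod_cast h1
    rw [le_div_iff₀ hK0]
    have : |v (e (p, true)) i - v (e (p, false)) i| * K =
        |(K : ℝ) * v (e (p, true)) i - K * v (e (p, false)) i| := by
      rw [← mul_sub, abs_mul, abs_of_pos hK0, mul_comm]
    rw [this, abs_le]
    simp only [hv]
    constructor <;> linarith
  obtain ⟨x, hx1, hx2, hx3⟩ := floating (fun p : ι => fun i => v (e (p, true)) i - v (e (p, false)) i)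
  set y : ι → ℤ := fun p => if x p = 1 then 1 else if x p = -1 then -1 else 0 with hy
  have hyc : ∀ p, ¬ |x p| < 1 → (y p : ℝ) = x p := by
    intro p hp
    have h1 : |x p| = 1 := le_antisymm (hx1 p) (not_lt.1 hp)
    rcases (abs_eq (by norm_num : (0 : ℝ) ≤ 1)).1 h1 with h | h
    · simp [hy, h]
    · have : ¬ (x p = 1) := by rw [h]; norm_num
      simp only [hy, h, if_true]
      push_cast
      norm_num
  have hyc0 : ∀ p, |x p| < 1 → y p = 0 := by
    intro p hp
    have h1 : ¬ (x p = 1) := by intro h; rw [h] at hp; norm_num at hp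
    have h2 : ¬ (x p = -1) := by intro h; rw [h] at hp; norm_num at hp
    simp [hy, h1, h2]
  have hyn : ∀ p, ¬ |x p| < 1 → y p ≠ 0 := by
    intro p hp h0
    have := hyc p hp
    rw [h0] at this
    apply hp
    rw [← this]; norm_num
  have hyabs : ∀ p, |y p| ≤ 1 := by
    intro p
    simp only [hy]
    split_ifs <;> norm_num
  set w : ι × Bool → ℤ := fun q => if q.2 then y q.1 else -y q.1 with hw
  have hwabs : ∀ q, |w q| ≤ 1 := by
    intro q
    simp only [hw]
    split_ifs
    · exact hyabs _
    · rw [abs_neg]; exact hyabs _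
  set ε : ℕ → ℤ := Function.extend e w 0 with hε
  have hεe : ∀ q, ε (e q) = w q := fun q => he.extend_apply _ _ _
  have hεo : ∀ l, (¬ ∃ q, e q = l) → ε l = 0 := fun l hl => by
    rw [hε, Function.extend_apply' _ _ _ hl]; rfl
  refine ⟨ε, ?_, ?_, ?_, ?_⟩
  · intro l
    by_cases h : ∃ q, e q = l
    · obtain ⟨q, rfl⟩ := h
      rw [hεe]; exact hwabs q
    · rw [hεo l h]; norm_num
  · intro l hl
    apply hεo
    rintro ⟨q, rfl⟩
    exact hl (hem q)
  · have hsub : (I.filter fun l => ε l = 0) ⊆ (I \ univ.image e) ∪
        ((univ.filter fun p => |x p| < 1) ×ˢ (univ : Finset Bool)).image e := by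
      intro l hl
      rw [mem_filter] at hl
      rw [mem_union, mem_sdiff]
      by_cases h : ∃ q, e q = l
      · right
        obtain ⟨q, rfl⟩ := h
        rw [mem_image]
        refine ⟨q, ?_, rfl⟩
        rw [mem_product, mem_filter]
        refine ⟨⟨mem_univ _, ?_⟩, mem_univ _⟩
        by_contra hcon
        apply hyn q.1 hcon
        have h2 := hl.2
        rw [hεe, hw] at h2
        simp only at h2
        split_ifs at h2
        · exact h2
        · linarith
      · left
        refine ⟨hl.1, ?_⟩
        rw [mem_image]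
        rintro ⟨q, _, hq⟩
        exact h ⟨q, hq⟩
    refine (card_le_card hsub).trans ((card_union_le _ _).trans ?_)
    have c1 : (univ.image e).card = 2 * Fintype.card ι := by
      rw [card_image_of_injective _ he, card_univ, Fintype.card_prod, Fintype.card_bool, mul_comm]
    have c2 : (I \ univ.image e).card = I.card - (univ.image e).card := by
      apply card_sdiff_of_subset
      intro l hl
      rw [mem_image] at hl
      obtain ⟨q, _, rfl⟩ := hl
      exact hem q
    have c3 : (((univ.filter fun p => |x p| < 1) ×ˢ (univ : Finset Bool)).image e).card ≤ 2 * k := by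
      refine card_image_le.trans ?_
      rw [card_product, card_univ, Fintype.card_bool]
      omega
    have c4 : Fintype.card (Fin k → Fin K) = K ^ k := by simp
    omega
  · intro i
    have hsum : (∑ l ∈ I, ε l * c l) = ∑ p, y p * (c (e (p, true)) - c (e (p, false))) := by
      have s1 : (∑ l ∈ univ.image e, ε l * c l) = ∑ l ∈ I, ε l * c l := by
        apply sum_subset
        · intro l hl
          rw [mem_image] at hl
          obtain ⟨q, _, rfl⟩ := hl
          exact hem q
        · intro l _ hl
          rw [hεo l, zero_mul]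
          rintro ⟨q, hq⟩
          exact hl (mem_image.2 ⟨q, mem_univ _, hq⟩)
      rw [← s1, sum_image (fun a _ b _ h => he h), Fintype.sum_prod_type]
      apply sum_congr rfl
      intro p _
      rw [Fintype.sum_bool, hεe, hεe]
      simp only [hw, if_true, Bool.false_eq_true, if_false]
      ring
    set z : ℤ := ∑ p, y p * (⌊α i * c (e (p, true))⌋ - ⌊α i * c (e (p, false))⌋) with hz
    set r : ℝ := ∑ p, (y p : ℝ) * (v (e (p, true)) i - v (e (p, false)) i) with hr
    apply exp_near (z := z) (r := r)
    · rw [hsum, hz, hr]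
      push_cast
      rw [mul_sum, ← sum_add_distrib]
      apply sum_congr rfl
      intro p _
      simp only [hv, Int.fract]
      ring
    · have hr2 : r = -∑ p ∈ univ.filter (fun p => |x p| < 1),
          x p * (v (e (p, true)) i - v (e (p, false)) i) := by
        have t1 := congrFun hx2 i
        rw [Finset.sum_apply] at t1
        simp only [Pi.smul_apply, smul_eq_mul, Pi.zero_apply] at t1
        rw [← Finset.sum_filter_add_sum_filter_not univ (fun p => |x p| < 1)] at t1
        rw [hr, ← Finset.sum_filter_add_sum_filter_not univ (fun p => |x p| < 1)]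
        have t2 : ∑ p ∈ univ.filter (fun p => |x p| < 1),
            (y p : ℝ) * (v (e (p, true)) i - v (e (p, false)) i) = 0 := by
          apply sum_eq_zero
          intro p hp
          rw [hyc0 p (mem_filter.1 hp).2]
          simp
        have t3 : ∑ p ∈ univ.filter (fun p => ¬ |x p| < 1),
            (y p : ℝ) * (v (e (p, true)) i - v (e (p, false)) i) =
            ∑ p ∈ univ.filter (fun p => ¬ |x p| < 1),
              x p * (v (e (p, true)) i - v (e (p, false)) i) := by
          apply sum_congr rfl
          intro p hp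
          rw [hyc p (mem_filter.1 hp).2]
        rw [t2, t3]
        linarith
      have hr3 : |r| ≤ k / K := by
        rw [hr2, abs_neg]
        refine (abs_sum_le_sum_abs _ _).trans ?_
        calc ∑ p ∈ univ.filter (fun p => |x p| < 1),
              |x p * (v (e (p, true)) i - v (e (p, false)) i)|
            ≤ ∑ p ∈ univ.filter (fun p => |x p| < 1), (1 / K : ℝ) := by
              apply sum_le_sum
              intro p _
              rw [abs_mul]
              calc |x p| * |v (e (p, true)) i - v (e (p, false)) i| ≤ 1 * (1 / K) :=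
                    mul_le_mul (hx1 p) (hClose p i) (abs_nonneg _) (by norm_num)
                _ = 1 / K := one_mul _
          _ = (univ.filter (fun p => |x p| < 1)).card * (1 / K : ℝ) := by
              rw [sum_const, nsmul_eq_mul]
          _ ≤ k * (1 / K) := by
              apply mul_le_mul_of_nonneg_right _ (by positivity)
              exact_mod_cast hx3
          _ = k / K := by ring
      calc 2 * Real.pi * |r| ≤ 2 * Real.pi * (k / K) :=
            mul_le_mul_of_nonneg_left hr3 Real.two_pi_pos.le
        _ < η := hKη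

end Pool.Agent.Q265.IP
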