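import Pool.Agent.Q265.IP.Digits

set_option autoImplicit false

/-!
# The density of the set of good numbers
-/

namespace Pool.Agent.Q265.IP

open Finset

theorem cb_bound (k : ℕ) : (Nat.centralBinom k) ^ 2 * (2 * k + 1) ≤ (4 ^ k) ^ 2 := by
  induction k with
  | zero => simp
  | succ k ih =>
    have h := Nat.succ_mul_centralBinom_succ k
    have h1 : (k + 1) ^ 2 * (Nat.centralBinom (k + 1)) ^ 2 =
        (2 * (2 * k + 1)) ^ 2 * (Nat.centralBinom k) ^ 2 := by
      rw [← mul_pow, ← mul_pow, h]
    have h2 : (k + 1) ^ 2 * ((Nat.centralBinom (k + 1)) ^ 2 * (2 * (k + 1) + 1)) ≤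
        (k + 1) ^ 2 * (4 ^ (k + 1)) ^ 2 := by
      calc (k + 1) ^ 2 * ((Nat.centralBinom (k + 1)) ^ 2 * (2 * (k + 1) + 1))
          = ((k + 1) ^ 2 * (Nat.centralBinom (k + 1)) ^ 2) * (2 * k + 3) := by ring
        _ = (2 * (2 * k + 1)) ^ 2 * (Nat.centralBinom k) ^ 2 * (2 * k + 3) := by rw [h1]
        _ = (4 * ((2 * k + 1) * (2 * k + 3))) * ((Nat.centralBinom k) ^ 2 * (2 * k + 1)) := by ring
        _ ≤ (4 * (4 * (k + 1) ^ 2)) * (4 ^ k) ^ 2 := by
            apply Nat.mul_le_mul _ ih
            nlinarith
        _ = (k + 1) ^ 2 * (4 ^ (k + 1)) ^ 2 := by ring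
    exact Nat.le_of_mul_le_mul_left h2 (by positivity)

theorem mid_le (j : ℕ) : 2 ^ (j + 3) * ((2 * j + 1) * Nat.centralBinom (m j)) ≤ 4 ^ m j := by
  have h := cb_bound (m j)
  have h2 : (2 ^ (j + 3) * ((2 * j + 1) * Nat.centralBinom (m j))) ^ 2 ≤ (4 ^ m j) ^ 2 := by
    refine le_trans ?_ h
    have e : (2 ^ (j + 3) * ((2 * j + 1) * Nat.centralBinom (m j))) ^ 2 =
        (Nat.centralBinom (m j)) ^ 2 * m j := by
      conv_rhs => rw [m]
      conv_lhs => rw [m]
      ring
    rw [e]
    apply Nat.mul_le_mul_left
    omega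
  exact (Nat.pow_le_pow_iff_left (by norm_num)).1 h2

/-- The position of the bit at level `l`. -/
def pos (l : ℕ) : ℕ := ex l + (l + 7)

theorem bit_eq (l n : ℕ) : bit l n = 1 ↔ n.testBit (pos l) = true := by
  rw [bit, hf, pos, Nat.testBit_eq_decide_div_mod_eq]
  simp

theorem pos_strictMono : StrictMono pos :=
  strictMono_nat_of_lt_succ fun l => by rw [pos, pos, ex]; omega

/-- Numbers below `2 ^ A` as sets of digits. -/
theorem count_digits (A t : ℕ) (T : Finset ℕ) (hT : T ⊆ range A) (P : ℕ → Prop)
    (hP : ∀ n, P n → ∃ k ∈ Finset.Icc (T.card / 2 - t) (T.card / 2 + t),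
      (T.filter fun p => n.testBit p = true).card = k) [DecidablePred P] :
    ((range (2 ^ A)).filter P).card ≤
      ((2 * t + 1) * T.card.choose (T.card / 2)) * 2 ^ (A - T.card) := by
  classical
  set φ : ℕ → Finset ℕ × Finset ℕ := fun n =>
    (T.filter fun p => n.testBit p = true, (range A \ T).filter fun p => n.testBit p = true) with hφ
  set R : Finset (Finset ℕ × Finset ℕ) :=
    ((Finset.Icc (T.card / 2 - t) (T.card / 2 + t)).biUnion fun k => powersetCard k T) ×ˢ
      (range A \ T).powerset with hR
  have h1 : ((range (2 ^ A)).filter P).card ≤ R.card := by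
    apply card_le_card_of_injOn φ
    · intro n hn
      rw [mem_coe, mem_filter] at hn
      obtain ⟨k, hk, hk2⟩ := hP n hn.2
      rw [hR, mem_coe, mem_product, mem_biUnion]
      refine ⟨⟨k, hk, ?_⟩, ?_⟩
      · rw [mem_powersetCard]
        exact ⟨filter_subset _ _, hk2⟩
      · rw [mem_powerset]; exact filter_subset _ _
    · intro n hn n' hn' h
      rw [mem_coe, mem_filter, mem_range] at hn hn'
      rw [hφ] at h
      simp only [Prod.mk.injEq] at h
      apply Nat.eq_of_testBit_eq
      intro i
      by_cases hi : i < A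
      · by_cases hiT : i ∈ T
        · have := Finset.ext_iff.1 h.1 i
          simp only [mem_filter, hiT, true_and] at this
          exact Bool.eq_iff_iff.2 this
        · have := Finset.ext_iff.1 h.2 i
          simp only [mem_filter, mem_sdiff, mem_range, hi, hiT, not_false_eq_true, true_and] at this
          exact Bool.eq_iff_iff.2 this
      · rw [Nat.testBit_lt_two_pow, Nat.testBit_lt_two_pow]
        · exact lt_of_lt_of_le hn'.1 (Nat.pow_le_pow_right (by norm_num) (by omega))
        · exact lt_of_lt_of_le hn.1 (Nat.pow_le_pow_right (by norm_num) (by omega))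
  refine h1.trans ?_
  rw [hR, card_product, card_powerset, card_sdiff_of_subset hT, card_range]
  apply Nat.mul_le_mul_right
  refine card_biUnion_le.trans ?_
  calc ∑ k ∈ Finset.Icc (T.card / 2 - t) (T.card / 2 + t), (powersetCard k T).card
      ≤ ∑ k ∈ Finset.Icc (T.card / 2 - t) (T.card / 2 + t), T.card.choose (T.card / 2) := by
        apply sum_le_sum
        intro k _
        rw [card_powersetCard]
        exact Nat.choose_le_middle _ _
    _ ≤ (2 * t + 1) * T.card.choose (T.card / 2) := by
        rw [sum_const, smul_eq_mul]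
        apply Nat.mul_le_mul_right
        rw [Nat.card_Icc]; omega

/-- Few numbers have a balanced block. -/
theorem count_bad {j J : ℕ} (hj : j < J) :
    2 ^ (j + 3) * ((range (q (N J))).filter fun n => m j ≤ w j n + j ∧ w j n ≤ m j + j).card ≤
      q (N J) := by
  classical
  set T : Finset ℕ := (blk j).image pos with hT
  have hTc : T.card = 2 * m j := by
    rw [hT, card_image_of_injective _ pos_strictMono.injective, blk_card]
  have hTsub : T ⊆ range (ex (N J)) := by
    intro p hp
    rw [hT, mem_image] at hp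
    obtain ⟨l, hl, rfl⟩ := hp
    rw [blk, mem_Ico] at hl
    rw [mem_range]
    have h1 : l + 1 ≤ N J := by
      have := N_strictMono.monotone (Nat.succ_le_of_lt hj)
      simp only [Nat.succ_eq_add_one] at this
      omega
    have h2 := ex_mono h1
    rw [ex] at h2
    rw [pos]; omega
  have hTcard : T.card ≤ ex (N J) := by
    have := card_le_card hTsub
    rwa [card_range] at this
  have hw : ∀ n, (T.filter fun p => n.testBit p = true).card = w j n := by
    intro n
    rw [w, hT, filter_image, card_image_of_injective _ pos_strictMono.injective]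
    congr 1
    apply filter_congr
    intro l _
    exact (bit_eq l n).symm
  have key := count_digits (ex (N J)) j T hTsub (fun n => m j ≤ w j n + j ∧ w j n ≤ m j + j)
    (by
      intro n hn
      refine ⟨w j n, ?_, hw n⟩
      rw [mem_Icc, hTc]
      omega)
  rw [hTc, Nat.mul_div_cancel_left _ (by norm_num : 0 < 2), ← Nat.centralBinom_eq_two_mul_choose]
    at key
  rw [q]
  calc 2 ^ (j + 3) * ((range (2 ^ ex (N J))).filter
        fun n => m j ≤ w j n + j ∧ w j n ≤ m j + j).card
      ≤ 2 ^ (j + 3) * (((2 * j + 1) * (m j).centralBinom) * 2 ^ (ex (N J) - 2 * m j)) :=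
        Nat.mul_le_mul_left _ key
    _ = (2 ^ (j + 3) * ((2 * j + 1) * (m j).centralBinom)) * 2 ^ (ex (N J) - 2 * m j) := by ring
    _ ≤ 4 ^ m j * 2 ^ (ex (N J) - 2 * m j) := Nat.mul_le_mul_right _ (mid_le j)
    _ = 2 ^ ex (N J) := by
        rw [show (4 : ℕ) = 2 ^ 2 by norm_num, ← pow_mul, ← pow_add]
        congr 1
        omega

/-- Few numbers are not inner. -/
theorem count_inn {l L : ℕ} (hl : l < L) [DecidablePred fun n => ¬ Inn l n] :
    2 ^ (l + 4) * ((range (q L)).filter fun n => ¬ Inn l n).card ≤ q L := by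
  classical
  have hd : hf l ∣ q L := by
    have h1 := q_dvd (Nat.succ_le_of_lt hl)
    simp only [Nat.succ_eq_add_one] at h1
    rw [q_succ] at h1
    exact (Dvd.intro_left 2 rfl).trans h1
  set B : Finset ℕ := (range (4 * q l)) ∪ (Finset.Ico (hf l - 4 * q l) (hf l)) with hB
  have hBc : B.card ≤ 8 * q l := by
    refine (card_union_le _ _).trans ?_
    rw [card_range, Nat.card_Ico]
    have := hf_ge l
    omega
  have h1 : ((range (q L)).filter fun n => ¬ Inn l n).card ≤ ((range (q L / hf l)) ×ˢ B).card := by
    apply card_le_card_of_injOn fun n => (n / hf l, n % hf l)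
    · intro n hn
      rw [mem_coe, mem_filter, mem_range] at hn
      rw [mem_coe, mem_product, mem_range, hB, mem_union, mem_range, mem_Ico]
      have hm := Nat.mod_lt n (hf_pos l)
      refine ⟨?_, ?_⟩
      · apply Nat.div_lt_of_lt_mul
        rw [Nat.mul_div_cancel' hd]; exact hn.1
      · have h2 := hn.2
        simp only
        rw [Inn, not_and_or] at h2
        rcases h2 with h2 | h2
        · left; omega
        · right; omega
    · intro n _ n' _ h
      simp only [Prod.mk.injEq] at h
      rw [← Nat.div_add_mod n (hf l), ← Nat.div_add_mod n' (hf l), h.1, h.2]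
  rw [card_product, card_range] at h1
  obtain ⟨u, hu⟩ := hd
  rw [hu, Nat.mul_div_cancel_left _ (hf_pos l)] at h1
  rw [hu] 
  calc 2 ^ (l + 4) * ((range (hf l * u)).filter fun n => ¬ Inn l n).card
      ≤ 2 ^ (l + 4) * (u * (8 * q l)) := by
        apply Nat.mul_le_mul_left
        exact h1.trans (Nat.mul_le_mul_left _ hBc)
    _ = (q l * 2 ^ (l + 7)) * u := by ring
    _ = hf l * u := by rw [hf_eq]

/-- At least half of the numbers below `q (N J)` are good. -/
theorem count_DJ (J : ℕ) [DecidablePred fun n => n ∈ DJ J] :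
    q (N J) ≤ 2 * ((range (q (N J))).filter fun n => n ∈ DJ J).card := by
  classical
  have hcov : range (q (N J)) ⊆ ((range (q (N J))).filter fun n => n ∈ DJ J) ∪
      (((range (N J)).biUnion fun l => (range (q (N J))).filter fun n => ¬ Inn l n) ∪
        ((range J).biUnion fun j => (range (q (N J))).filter
          fun n => m j ≤ w j n + j ∧ w j n ≤ m j + j)) := by
    intro n hn
    rw [mem_union, mem_union, mem_filter, mem_biUnion, mem_biUnion]
    by_cases h1 : n ∈ DJ J
    · exact Or.inl ⟨hn, h1⟩
    · right
      rw [DJ, Set.mem_ofPred_eq, not_and_or, not_and_or] at h1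
      rcases h1 with h1 | h1 | h1
      · exact absurd (mem_range.1 hn) h1
      · push Not at h1
        obtain ⟨l, hl, hl2⟩ := h1
        left
        exact ⟨l, mem_range.2 hl, mem_filter.2 ⟨hn, hl2⟩⟩
      · push Not at h1
        obtain ⟨j, hj, hj2⟩ := h1
        right
        exact ⟨j, mem_range.2 hj, mem_filter.2 ⟨hn, hj2⟩⟩
  have hle := (card_le_card hcov).trans ((card_union_le _ _).trans
    (Nat.add_le_add_left (card_union_le _ _) _))
  rw [card_range] at hle
  have h1 : (((range (N J)).biUnion fun l => (range (q (N J))).filter fun n => ¬ Inn l n).card : ℝ)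
      ≤ q (N J) / 4 := by
    calc (((range (N J)).biUnion fun l => (range (q (N J))).filter fun n => ¬ Inn l n).card : ℝ)
        ≤ ∑ l ∈ range (N J), (((range (q (N J))).filter fun n => ¬ Inn l n).card : ℝ) := by
          exact_mod_cast card_biUnion_le
      _ ≤ ∑ l ∈ range (N J), (q (N J) : ℝ) / 8 * (1 / 2) ^ (l + 1) := by
          apply sum_le_sum
          intro l hl
          have := count_inn (mem_range.1 hl)
          have h2 : ((2 : ℝ) ^ (l + 4)) * (((range (q (N J))).filter fun n => ¬ Inn l n).card : ℝ) ≤
              q (N J) := by exact_mod_cast this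
          have h3 : (0 : ℝ) < 2 ^ (l + 4) := by positivity
          rw [mul_comm, ← le_div_iff₀ h3] at h2
          refine h2.trans (le_of_eq ?_)
          rw [one_div, inv_pow, pow_succ, pow_add]
          field_simp
          ring
      _ = (q (N J) : ℝ) / 8 * ∑ l ∈ range (N J), (1 / 2 : ℝ) ^ (l + 1) := by rw [mul_sum]
      _ ≤ (q (N J) : ℝ) / 8 * 1 := by
          apply mul_le_mul_of_nonneg_left _ (by positivity)
          have : ∑ l ∈ range (N J), (1 / 2 : ℝ) ^ (l + 1) = 1 - (1 / 2) ^ N J := by
            induction (N J) with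
            | zero => simp
            | succ k ih => rw [sum_range_succ, ih, pow_succ]; ring
          rw [this]
          have : (0 : ℝ) ≤ (1 / 2) ^ N J := by positivity
          linarith
      _ ≤ q (N J) / 4 := by
          have : (0 : ℝ) ≤ q (N J) := by positivity
          linarith
  have h2 : (((range J).biUnion fun j => (range (q (N J))).filter
          fun n => m j ≤ w j n + j ∧ w j n ≤ m j + j).card : ℝ) ≤ q (N J) / 4 := by
    calc (((range J).biUnion fun j => (range (q (N J))).filter
          fun n => m j ≤ w j n + j ∧ w j n ≤ m j + j).card : ℝ)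
        ≤ ∑ j ∈ range J, (((range (q (N J))).filter
          fun n => m j ≤ w j n + j ∧ w j n ≤ m j + j).card : ℝ) := by
          exact_mod_cast card_biUnion_le
      _ ≤ ∑ j ∈ range J, (q (N J) : ℝ) / 4 * (1 / 2) ^ (j + 1) := by
          apply sum_le_sum
          intro j hj
          have := count_bad (mem_range.1 hj)
          have h2 : ((2 : ℝ) ^ (j + 3)) * (((range (q (N J))).filter
              fun n => m j ≤ w j n + j ∧ w j n ≤ m j + j).card : ℝ) ≤
              q (N J) := by exact_mod_cast this
          have h3 : (0 : ℝ) < 2 ^ (j + 3) := by positivity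
          rw [mul_comm, ← le_div_iff₀ h3] at h2
          refine h2.trans (le_of_eq ?_)
          rw [one_div, inv_pow, pow_succ, pow_add]
          field_simp
          ring
      _ = (q (N J) : ℝ) / 4 * ∑ j ∈ range J, (1 / 2 : ℝ) ^ (j + 1) := by rw [mul_sum]
      _ ≤ (q (N J) : ℝ) / 4 * 1 := by
          apply mul_le_mul_of_nonneg_left _ (by positivity)
          have : ∑ j ∈ range J, (1 / 2 : ℝ) ^ (j + 1) = 1 - (1 / 2) ^ J := by
            clear * -
            induction J with
            | zero => simp
            | succ k ih => rw [sum_range_succ, ih, pow_succ]; ring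
          rw [this]
          have : (0 : ℝ) ≤ (1 / 2) ^ J := by positivity
          linarith
      _ = q (N J) / 4 := by ring
  have h3 : (q (N J) : ℝ) ≤ (((range (q (N J))).filter fun n => n ∈ DJ J).card : ℝ) +
      ((((range (N J)).biUnion fun l => (range (q (N J))).filter fun n => ¬ Inn l n).card : ℝ) +
      (((range J).biUnion fun j => (range (q (N J))).filter
          fun n => m j ≤ w j n + j ∧ w j n ≤ m j + j).card : ℝ)) := by
    exact_mod_cast hle
  have h4 : (q (N J) : ℝ) ≤ 2 * (((range (q (N J))).filter fun n => n ∈ DJ J).card : ℝ) := by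
    linarith
  exact_mod_cast h4

/-- For every `J` one of the two parity classes has at least a quarter of the numbers below
`q (N J)`. -/
theorem count_AA (J : ℕ) : ∃ c < 2, q (N J) ≤ 4 * (AA c ∩ Set.Iio (q (N J))).ncard := by
  classical
  have h := count_DJ J
  have hcov : ((range (q (N J))).filter fun n => n ∈ DJ J) ⊆
      ((range (q (N J))).filter fun n => n ∈ AA 0) ∪
      ((range (q (N J))).filter fun n => n ∈ AA 1) := by
    intro n hn
    rw [mem_filter] at hn
    rw [mem_union, mem_filter, mem_filter]
    rcases Nat.mod_two_eq_zero_or_one (∑ j ∈ range J, hh j n) with h0 | h0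
    · exact Or.inl ⟨hn.1, J, hn.2, h0⟩
    · exact Or.inr ⟨hn.1, J, hn.2, h0⟩
  have hc : ∀ c, (AA c ∩ Set.Iio (q (N J))).ncard =
      ((range (q (N J))).filter fun n => n ∈ AA c).card := by
    intro c
    rw [← Set.ncard_coe_finset]
    congr 1
    ext n
    simp [and_comm]
  have := (card_le_card hcov).trans (card_union_le _ _)
  by_cases h0 : q (N J) ≤ 4 * (AA 0 ∩ Set.Iio (q (N J))).ncard
  · exact ⟨0, by norm_num, h0⟩
  · refine ⟨1, by norm_num, ?_⟩
    rw [hc] at h0 ⊢
    omega

end Pool.Agent.Q265.IP
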