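import Mathlib

set_option autoImplicit false

/-!
# The digit construction

Levels `l = 0, 1, 2, …` with moduli `q (l + 1) = 2 ^ a (l + 1)`, half moduli `hf l`; the bit of `n`
at level `l` is the top binary digit of `n` modulo `q (l + 1)`.
-/

namespace Pool.Agent.Q265.IP

open Finset

/-- Exponents of the moduli. -/
def ex : ℕ → ℕ
  | 0 => 0
  | (l + 1) => ex l + (l + 8)

/-- Moduli. -/
def q (l : ℕ) : ℕ := 2 ^ ex l

/-- The half of the modulus `q (l + 1)`. -/
def hf (l : ℕ) : ℕ := 2 ^ (ex l + (l + 7))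

/-- The top digit of `n` modulo `q (l + 1)`. -/
def bit (l n : ℕ) : ℕ := (n / hf l) % 2

/-- `n` is far from the multiples of `hf l`. -/
def Inn (l n : ℕ) : Prop := 4 * q l ≤ n % hf l ∧ n % hf l + 4 * q l < hf l

theorem q_pos (l : ℕ) : 0 < q l := pow_pos (by norm_num) _

theorem hf_pos (l : ℕ) : 0 < hf l := pow_pos (by norm_num) _

theorem q_succ (l : ℕ) : q (l + 1) = 2 * hf l := by
  rw [q, hf, ex, ← pow_succ']
  congr 1

theorem hf_eq (l : ℕ) : hf l = q l * 2 ^ (l + 7) := by
  rw [hf, q, pow_add]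

theorem hf_ge (l : ℕ) : 128 * q l ≤ hf l := by
  rw [hf_eq, mul_comm]
  apply Nat.mul_le_mul_left
  calc 128 = 2 ^ 7 := by norm_num
    _ ≤ 2 ^ (l + 7) := Nat.pow_le_pow_right (by norm_num) (by omega)

theorem ex_mono : Monotone ex := monotone_nat_of_le_succ fun l => by rw [ex]; omega

theorem q_dvd {l l' : ℕ} (h : l ≤ l') : q l ∣ q l' := pow_dvd_pow _ (ex_mono h)

theorem q_mono {l l' : ℕ} (h : l ≤ l') : q l ≤ q l' := Nat.le_of_dvd (q_pos _) (q_dvd h)

theorem two_mul_q_le (l : ℕ) : 2 * q l ≤ q (l + 1) := by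
  rw [q_succ]
  have := hf_ge l
  omega

theorem q_dvd_hf {l l' : ℕ} (h : l < l') : 2 * hf l ∣ hf l' := by
  rw [← q_succ]
  exact (q_dvd h).trans ⟨2 ^ (l' + 7), hf_eq l'⟩

theorem sum_q_le (l : ℕ) : ∑ i ∈ range (l + 1), q i ≤ 2 * q l := by
  induction l with
  | zero => simp only [zero_add, sum_range_one]; omega
  | succ l ih =>
    rw [sum_range_succ]
    have := two_mul_q_le l
    omega

theorem sum_hf_le (l : ℕ) : ∑ i ∈ range l, hf i ≤ 2 * q l := by
  refine le_trans ?_ (sum_q_le l)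
  calc ∑ i ∈ range l, hf i ≤ ∑ i ∈ range l, q (i + 1) := by
        apply sum_le_sum
        intro i _
        rw [q_succ]; omega
    _ ≤ ∑ i ∈ range (l + 1), q i := by
        rw [sum_range_succ' (fun i => q i) l]; omega

theorem bit_lt (l n : ℕ) : bit l n < 2 := Nat.mod_lt _ (by norm_num)

theorem bit_zero {l n : ℕ} (h : n < q l) : bit l n = 0 := by
  have h2 : n < hf l := by
    have := hf_ge l
    omega
  rw [bit, Nat.div_eq_of_lt h2]

/-- The basic step: a small shift at an inner point. -/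
theorem bit_shift {l a a' : ℕ} {e y z : ℤ} (hin : Inn l a')
    (h : (a : ℤ) = a' + e * hf l + y + 2 * hf l * z) (hy : |y| ≤ 4 * q l) :
    ((bit l a : ℤ) = (bit l a' + e) % 2) := by
  obtain ⟨h1, h2⟩ := hin
  have hH : (0 : ℤ) < hf l := by exact_mod_cast hf_pos l
  have hd := Nat.div_add_mod a' (hf l)
  have hd' : (hf l : ℤ) * ((a' / hf l : ℕ) : ℤ) + ((a' % hf l : ℕ) : ℤ) = a' := by exact_mod_cast hd
  have h1' : (4 * q l : ℤ) ≤ ((a' % hf l : ℕ) : ℤ) := by exact_mod_cast h1
  have h2' : ((a' % hf l : ℕ) : ℤ) + 4 * q l < hf l := by exact_mod_cast h2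
  rw [abs_le] at hy
  have hq : (a : ℤ) / hf l = ((a' / hf l : ℕ) : ℤ) + e + 2 * z := by
    have hr : (a : ℤ) = (((a' % hf l : ℕ) : ℤ) + y) + hf l * (((a' / hf l : ℕ) : ℤ) + e + 2 * z) := by
      rw [h, ← hd']; ring
    rw [hr, Int.add_mul_ediv_left _ _ hH.ne', Int.ediv_eq_zero_of_lt (by linarith) (by linarith)]
    ring
  rw [bit, bit]
  push_cast
  rw [hq]
  push_cast
  omega

/-- The block lengths are `2 * m j`. -/
def m (j : ℕ) : ℕ := ((2 * j + 1) * 2 ^ (j + 3)) ^ 2

/-- The blocks are `[N j, N (j + 1))`. -/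
def N : ℕ → ℕ
  | 0 => 0
  | (j + 1) => N j + 2 * m j

/-- The block number `j`. -/
def blk (j : ℕ) : Finset ℕ := Finset.Ico (N j) (N (j + 1))

/-- The number of bits one in the block. -/
def w (j n : ℕ) : ℕ := ((blk j).filter fun l => bit l n = 1).card

/-- The majority of the block. -/
def hh (j n : ℕ) : ℕ := if m j < w j n then 1 else 0

theorem m_pos (j : ℕ) : 0 < m j := by rw [m]; positivity

theorem lt_m (j : ℕ) : j < m j := by
  rw [m]
  have h1 : 1 ≤ 2 ^ (j + 3) := Nat.one_le_two_pow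
  have h2 : 2 * j + 1 ≤ (2 * j + 1) * 2 ^ (j + 3) := Nat.le_mul_of_pos_right _ (by positivity)
  nlinarith

theorem N_lt (j : ℕ) : N j < N (j + 1) := by
  rw [N]; have := m_pos j; omega

theorem N_strictMono : StrictMono N := strictMono_nat_of_lt_succ N_lt

theorem blk_card (j : ℕ) : (blk j).card = 2 * m j := by
  rw [blk, Nat.card_Ico, N]; omega

theorem w_zero {j n : ℕ} (h : n < q (N j)) : w j n = 0 := by
  rw [w, card_eq_zero, filter_eq_empty_iff]
  intro l hl
  rw [blk, mem_Ico] at hl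
  rw [bit_zero (lt_of_lt_of_le h (q_mono hl.1))]
  norm_num

/-- Good numbers below `q (N J)`. -/
def DJ (J : ℕ) : Set ℕ := {n | n < q (N J) ∧ (∀ l < N J, Inn l n) ∧
  ∀ j < J, ¬ (m j ≤ w j n + j ∧ w j n ≤ m j + j)}

theorem DJ_all {J n : ℕ} (h : n ∈ DJ J) (j : ℕ) : ¬ (m j ≤ w j n + j ∧ w j n ≤ m j + j) := by
  by_cases hj : j < J
  · exact h.2.2 j hj
  · rw [w_zero (lt_of_lt_of_le h.1 (q_mono (N_strictMono.monotone (not_lt.1 hj))))]
    have := lt_m j
    omega

theorem DJ_hh {J n : ℕ} (h : n ∈ DJ J) {j : ℕ} (hj : J ≤ j) : hh j n = 0 := by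
  rw [hh, w_zero (lt_of_lt_of_le h.1 (q_mono (N_strictMono.monotone hj)))]
  simp

/-- The set `A` (a parity class of the sum of the majorities). -/
def AA (c : ℕ) : Set ℕ := {n | ∃ J, n ∈ DJ J ∧ (∑ j ∈ range J, hh j n) % 2 = c}

theorem sum_hh {J n M : ℕ} (h : n ∈ DJ J) (hM : J ≤ M) :
    ∑ j ∈ range M, hh j n = ∑ j ∈ range J, hh j n := by
  symm
  apply sum_subset (range_mono hM)
  intro j _ hj
  exact DJ_hh h (by simpa using hj)

/-- Residues of `b - s`. -/
theorem residue {j0 : ℕ} {ε : ℕ → ℤ} (h1 : ∀ l, |ε l| ≤ 1) (h0 : ∀ l, l ∉ blk j0 → ε l = 0)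
    (F : Finset ℕ) (l : ℕ) :
    ∃ y z : ℤ, (∑ i ∈ blk j0, ε i * hf i) - (∑ i ∈ F, (q (N i) : ℤ)) =
      |ε l| * hf l + y + 2 * hf l * z ∧ |y| ≤ 4 * q l := by
  classical
  -- the sum over the block
  obtain ⟨y1, z1, e1, b1⟩ : ∃ y z : ℤ, (∑ i ∈ blk j0, ε i * hf i) =
      |ε l| * hf l + y + 2 * hf l * z ∧ |y| ≤ 2 * q l := by
    have hsplit : (∑ i ∈ blk j0, ε i * (hf i : ℤ)) =
        ∑ i ∈ (blk j0).filter (fun i => i < l), ε i * (hf i : ℤ) +
          (∑ i ∈ ((blk j0).filter (fun i => ¬ i < l)).filter (fun i => i = l), ε i * (hf i : ℤ) +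
          ∑ i ∈ ((blk j0).filter (fun i => ¬ i < l)).filter (fun i => ¬ i = l),
            ε i * (hf i : ℤ)) := by
      rw [sum_filter_add_sum_filter_not, sum_filter_add_sum_filter_not]
    have hmid : (∑ i ∈ ((blk j0).filter (fun i => ¬ i < l)).filter (fun i => i = l),
        ε i * (hf i : ℤ)) = ε l * hf l := by
      by_cases hl : l ∈ blk j0
      · have : ((blk j0).filter (fun i => ¬ i < l)).filter (fun i => i = l) = {l} := by
          ext i
          simp only [mem_filter, mem_singleton]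
          constructor
          · exact fun h => h.2
          · rintro rfl; exact ⟨⟨hl, by omega⟩, rfl⟩
        rw [this, sum_singleton]
      · have : ((blk j0).filter (fun i => ¬ i < l)).filter (fun i => i = l) = ∅ := by
          rw [filter_eq_empty_iff]
          intro i hi h
          rw [mem_filter, h] at hi
          exact hl hi.1
        rw [this, sum_empty, h0 l hl, zero_mul]
    have hhigh : (2 * hf l : ℤ) ∣ (∑ i ∈ ((blk j0).filter (fun i => ¬ i < l)).filter
        (fun i => ¬ i = l), ε i * (hf i : ℤ)) := by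
      apply dvd_sum
      intro i hi
      rw [mem_filter, mem_filter] at hi
      have : l < i := by omega
      apply Dvd.dvd.mul_left
      exact_mod_cast q_dvd_hf this
    obtain ⟨z, hz⟩ := hhigh
    obtain ⟨u, hu⟩ : ∃ u : ℤ, ε l = |ε l| + 2 * u := by
      rcases abs_choice (ε l) with h | h
      · exact ⟨0, by rw [h]; ring⟩
      · exact ⟨ε l, by rw [h]; ring⟩
    refine ⟨∑ i ∈ (blk j0).filter (fun i => i < l), ε i * (hf i : ℤ), z + u, ?_, ?_⟩
    · rw [hsplit, hmid, hz]
      linear_combination (hf l : ℤ) * hu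
    · refine (abs_sum_le_sum_abs _ _).trans ?_
      calc ∑ i ∈ (blk j0).filter (fun i => i < l), |ε i * (hf i : ℤ)|
          ≤ ∑ i ∈ (blk j0).filter (fun i => i < l), (hf i : ℤ) := by
            apply sum_le_sum
            intro i _
            rw [abs_mul, abs_of_nonneg (by positivity : (0 : ℤ) ≤ hf i)]
            calc |ε i| * (hf i : ℤ) ≤ 1 * hf i :=
                  mul_le_mul_of_nonneg_right (h1 i) (by positivity)
              _ = hf i := one_mul _
        _ ≤ ∑ i ∈ range l, (hf i : ℤ) := by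
            apply sum_le_sum_of_subset_of_nonneg
            · intro i hi
              rw [mem_filter] at hi
              exact mem_range.2 hi.2
            · intro i _ _; positivity
        _ ≤ 2 * q l := by exact_mod_cast sum_hf_le l
  obtain ⟨y2, z2, e2, b2⟩ : ∃ y z : ℤ, (∑ i ∈ F, (q (N i) : ℤ)) = y + 2 * hf l * z ∧
      |y| ≤ 2 * q l := by
    have hhigh : (2 * hf l : ℤ) ∣ ∑ i ∈ F.filter (fun i => ¬ N i ≤ l), (q (N i) : ℤ) := by
      apply dvd_sum
      intro i hi
      rw [mem_filter] at hi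
      have h3 : l + 1 ≤ N i := by omega
      have h4 := q_dvd h3
      rw [q_succ] at h4
      exact_mod_cast h4
    obtain ⟨z, hz⟩ := hhigh
    refine ⟨∑ i ∈ F.filter (fun i => N i ≤ l), (q (N i) : ℤ), z, ?_, ?_⟩
    · rw [← hz, sum_filter_add_sum_filter_not]
    · rw [abs_of_nonneg (sum_nonneg fun i _ => by positivity)]
      calc ∑ i ∈ F.filter (fun i => N i ≤ l), (q (N i) : ℤ)
          = ∑ i ∈ (F.filter (fun i => N i ≤ l)).image N, (q i : ℤ) := by
            rw [sum_image]
            intro x _ y _ h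
            exact N_strictMono.injective h
        _ ≤ ∑ i ∈ range (l + 1), (q i : ℤ) := by
            apply sum_le_sum_of_subset_of_nonneg
            · intro i hi
              rw [mem_image] at hi
              obtain ⟨i', hi', rfl⟩ := hi
              rw [mem_filter] at hi'
              rw [mem_range]; omega
            · intro i _ _; positivity
        _ ≤ 2 * q l := by exact_mod_cast sum_q_le l
  refine ⟨y1 - y2, z1 - z2, ?_, ?_⟩
  · rw [e1, e2]; ring
  · rw [abs_le] at *
    constructor <;> linarith [b1.1, b1.2, b2.1, b2.2]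

/-- The relation between the bits. -/
theorem bits_rel {j0 : ℕ} {ε : ℕ → ℤ} (h1 : ∀ l, |ε l| ≤ 1) (h0 : ∀ l, l ∉ blk j0 → ε l = 0)
    (F : Finset ℕ) {J J' a a' : ℕ} (ha : a ∈ DJ J) (ha' : a' ∈ DJ J')
    (h : (a : ℤ) - a' = (∑ i ∈ blk j0, ε i * hf i) - (∑ i ∈ F, (q (N i) : ℤ))) (l : ℕ) :
    ((bit l a : ℤ) + bit l a') % 2 = |ε l| := by
  obtain ⟨y, z, e, b⟩ := residue h1 h0 F l
  rw [← h] at e
  have hε : 0 ≤ |ε l| := abs_nonneg _
  have hε1 := h1 l
  have k1 := bit_lt l a
  have k2 := bit_lt l a'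
  by_cases c1 : l < N J'
  · have := bit_shift (ha'.2.1 l c1) (a := a) (e := |ε l|) (y := y) (z := z) (by linarith) b
    omega
  · by_cases c2 : l < N J
    · have := bit_shift (ha.2.1 l c2) (a := a') (e := -|ε l|) (y := -y) (z := -z) (by linarith)
        (by rw [abs_neg]; exact b)
      omega
    · have a1 : a < q l := lt_of_lt_of_le ha.1 (q_mono (not_lt.1 c2))
      have a2 : a' < q l := lt_of_lt_of_le ha'.1 (q_mono (not_lt.1 c1))
      rw [bit_zero a1, bit_zero a2]
      have a1' : (a : ℤ) < q l := by exact_mod_cast a1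
      have a2' : (a' : ℤ) < q l := by exact_mod_cast a2
      have hH : (128 * q l : ℤ) ≤ hf l := by exact_mod_cast hf_ge l
      have hq0 : (0 : ℤ) < q l := by exact_mod_cast q_pos l
      rw [abs_le] at b
      have hz : |ε l| = 0 := by
        by_contra hne
        have hone : |ε l| = 1 := by omega
        rw [hone] at e
        have e' : (hf l : ℤ) * (1 + 2 * z) = (a : ℤ) - a' - y := by linarith
        rcases le_or_gt 0 z with hz | hz
        · have : (hf l : ℤ) * 1 ≤ hf l * (1 + 2 * z) :=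
            mul_le_mul_of_nonneg_left (by linarith) (by linarith)
          have hnn : (0 : ℤ) ≤ a' := by positivity
          linarith [b.1, b.2]
        · have : (hf l : ℤ) * (1 + 2 * z) ≤ hf l * (-1) :=
            mul_le_mul_of_nonneg_left (by linarith [Int.add_one_le_iff.2 hz]) (by linarith)
          have hnn : (0 : ℤ) ≤ a := by positivity
          linarith [b.1, b.2]
      rw [hz]; norm_num

/-- Away from the block nothing changes. -/
theorem w_eq {j j0 : ℕ} (hj : j ≠ j0) {ε : ℕ → ℤ} (h0 : ∀ l, l ∉ blk j0 → ε l = 0) {a a' : ℕ}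
    (h : ∀ l, ((bit l a : ℤ) + bit l a') % 2 = |ε l|) : w j a = w j a' := by
  rw [w, w]
  congr 1
  apply filter_congr
  intro l hl
  have hl0 : l ∉ blk j0 := by
    intro hl'
    rw [blk, mem_Ico] at hl hl'
    rcases lt_or_gt_of_ne hj with h1 | h1
    · have := N_strictMono.monotone (Nat.succ_le_of_lt h1)
      simp only [Nat.succ_eq_add_one] at this
      omega
    · have := N_strictMono.monotone (Nat.succ_le_of_lt h1)
      simp only [Nat.succ_eq_add_one] at this
      omega
  have h2 := h l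
  rw [h0 l hl0, abs_zero] at h2
  have k1 := bit_lt l a
  have k2 := bit_lt l a'
  omega

/-- In the block the weights add up to the length, up to the number of zeros. -/
theorem w_add {j0 : ℕ} {ε : ℕ → ℤ} (h1 : ∀ l, |ε l| ≤ 1)
    (hz : ((blk j0).filter fun l => ε l = 0).card ≤ j0) {a a' : ℕ}
    (h : ∀ l, ((bit l a : ℤ) + bit l a') % 2 = |ε l|) :
    2 * m j0 ≤ w j0 a + w j0 a' + j0 ∧ w j0 a + w j0 a' ≤ 2 * m j0 + j0 := by
  classical
  have hw : w j0 a + w j0 a' = ∑ l ∈ blk j0, (bit l a + bit l a') := by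
    rw [w, w, card_filter, card_filter, ← sum_add_distrib]
    apply sum_congr rfl
    intro l _
    have k1 := bit_lt l a
    have k2 := bit_lt l a'
    split_ifs <;> omega
  have hcard := blk_card j0
  have e1 : ∑ l ∈ blk j0, 1 = 2 * m j0 := by rw [sum_const, hcard]; simp
  have e2 : ∑ l ∈ blk j0, (if ε l = 0 then 1 else 0) ≤ j0 := by
    rw [← card_filter]; exact hz
  have key : ∀ l, 1 ≤ bit l a + bit l a' + (if ε l = 0 then 1 else 0) ∧
      bit l a + bit l a' ≤ 1 + (if ε l = 0 then 1 else 0) := by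
    intro l
    have h2 := h l
    have k1 := bit_lt l a
    have k2 := bit_lt l a'
    have h1' := h1 l
    split_ifs with h3
    · rw [h3, abs_zero] at h2
      omega
    · have : 0 < |ε l| := abs_pos.2 h3
      omega
  constructor
  · have := sum_le_sum (s := blk j0) fun l _ => (key l).1
    rw [sum_add_distrib, e1, ← hw] at this
    omega
  · have := sum_le_sum (s := blk j0) fun l _ => (key l).2
    rw [sum_add_distrib (f := fun _ => 1), e1, ← hw] at this
    omega

/-- `b` is not in `A - A + S`. -/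
theorem avoid {c j0 : ℕ} {ε : ℕ → ℤ} (h1 : ∀ l, |ε l| ≤ 1) (h0 : ∀ l, l ∉ blk j0 → ε l = 0)
    (hz : ((blk j0).filter fun l => ε l = 0).card ≤ j0) (F : Finset ℕ) {a a' : ℕ}
    (ha : a ∈ AA c) (ha' : a' ∈ AA c) :
    (∑ i ∈ blk j0, ε i * (hf i : ℤ)) ≠ (a : ℤ) - a' + ∑ i ∈ F, (q (N i) : ℤ) := by
  intro heq
  obtain ⟨J, hD, hp⟩ := ha
  obtain ⟨J', hD', hp'⟩ := ha'
  have hb := bits_rel h1 h0 F hD hD' (by linarith)
  set M := max (max J J') (j0 + 1) with hM
  have s1 := sum_hh hD (M := M) (by omega)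
  have s2 := sum_hh hD' (M := M) (by omega)
  have hj0 : j0 ∈ range M := mem_range.2 (by omega)
  have s3 : ∑ j ∈ range M, hh j a = ∑ j ∈ (range M).erase j0, hh j a + hh j0 a :=
    (sum_erase_add _ _ hj0).symm
  have s4 : ∑ j ∈ range M, hh j a' = ∑ j ∈ (range M).erase j0, hh j a' + hh j0 a' :=
    (sum_erase_add _ _ hj0).symm
  have s5 : ∑ j ∈ (range M).erase j0, hh j a = ∑ j ∈ (range M).erase j0, hh j a' := by
    apply sum_congr rfl
    intro j hj
    rw [hh, hh, w_eq (mem_erase.1 hj).1 h0 hb]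
  obtain ⟨w1, w2⟩ := w_add h1 hz hb
  have d1 := DJ_all hD j0
  have d2 := DJ_all hD' j0
  have hflip : hh j0 a + hh j0 a' = 1 := by
    rw [hh, hh]
    split_ifs <;> omega
  omega

end Pool.Agent.Q265.IP
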